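import Mathlib

/-!
# A triplet cover that is not shellable

There is a binary phylogenetic tree with 12 leaves and a triplet cover (27 pairs) for it which is
not shellable: the pairs that can be added one after the other are only three, after which a set of
30 pairs is reached to which no further pair can be added.
-/

set_option autoImplicit false

namespace Pool.Agent.Results.MP_66d22e_co.NonShellable

/-- A binary phylogenetic `X`-tree: a finite tree whose vertices of degree one are exactly the
vertices `leaf x`, all other vertices having degree 3. -/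
structure BinTree (X : Type) where
  /-- vertices -/
  V : Type
  fin : Finite V
  G : SimpleGraph V
  tree : G.IsTree
  /-- the leaf labelled `x` -/
  leaf : X → V
  inj : Function.Injective leaf
  leaf_deg : ∀ x, (G.neighborSet (leaf x)).ncard = 1
  int_deg : ∀ v, v ∉ Set.range leaf → (G.neighborSet v).ncard = 3

variable {X : Type}

/-- The leaves `a` and `b` lie in different components of the tree after removal of the interior
vertex `v`: every walk from `a` to `b` meets `v`. -/
def Sep (T : BinTree X) (v : T.V) (a b : X) : Prop :=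
  ∀ p : T.G.Walk (T.leaf a) (T.leaf b), v ∈ p.support

/-- The triple `abc` supports the interior vertex `v`. -/
def Supports (T : BinTree X) (C : Set (Sym2 X)) (v : T.V) (a b c : X) : Prop :=
  Sep T v a b ∧ Sep T v a c ∧ Sep T v b c ∧ s(a, b) ∈ C ∧ s(a, c) ∈ C ∧ s(b, c) ∈ C

/-- `C` is a set of 2-subsets of `X` and every interior vertex is supported by some triple. -/
def IsTripletCover (T : BinTree X) (C : Set (Sym2 X)) : Prop :=
  (∀ e ∈ C, ¬ e.IsDiag) ∧ ∀ v, v ∉ Set.range T.leaf → ∃ a b c, Supports T C v a b c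

/-- The quartet `xa|yb`: the path from `x` to `a` and the path from `y` to `b` are disjoint. -/
def Quartet (T : BinTree X) (x a y b : X) : Prop :=
  ∃ (p : T.G.Walk (T.leaf x) (T.leaf a)) (q : T.G.Walk (T.leaf y) (T.leaf b)),
    p.IsPath ∧ q.IsPath ∧ ∀ w ∈ p.support, w ∉ q.support

/-- `C` is `T`-shellable: the 2-subsets of `X` outside `C` can be ordered as
`a 0 b 0, …, a (m-1) b (m-1)` such that for each `i` there are distinct `x, y` different from
`a i, b i` with quartet `x (a i) | y (b i)` such that the other five pairs of elements of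
`{a i, b i, x, y}` lie in `C` or occur earlier in the list. -/
def Shellable (T : BinTree X) (C : Set (Sym2 X)) : Prop :=
  ∃ (m : ℕ) (a b : Fin m → X), (∀ i, a i ≠ b i) ∧ (Function.Injective fun i => s(a i, b i)) ∧
    (∀ e : Sym2 X, ¬ e.IsDiag → (e ∉ C ↔ ∃ i, s(a i, b i) = e)) ∧
    ∀ i, ∃ x y, x ≠ y ∧ x ≠ a i ∧ x ≠ b i ∧ y ≠ a i ∧ y ≠ b i ∧ Quartet T x (a i) y (b i) ∧
      ∀ e ∈ ({s(x, y), s(x, a i), s(x, b i), s(y, a i), s(y, b i)} : Set (Sym2 X)),
        e ∈ C ∨ ∃ j < i, e = s(a j, b j)

/-! ### The tree -/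

/-- parent of a vertex -/
def par : Fin 22 → Fin 22 :=
  ![20, 20, 19, 18, 17, 21, 21, 15, 14, 13, 12, 12, 12, 12, 13, 14, 15, 16, 17, 18, 19, 16]

/-- adjacency of the tree -/
def A (u v : Fin 22) : Prop := u ≠ v ∧ (par u = v ∨ par v = u)

instance : DecidableRel A := fun u v => by unfold A; infer_instance

/-- the tree as a graph -/
def G : SimpleGraph (Fin 22) where
  Adj := A
  symm := ⟨fun u v h => ⟨h.1.symm, h.2.symm⟩⟩
  loopless := ⟨fun u h => h.1 rfl⟩

instance : DecidableRel G.Adj := fun u v => inferInstanceAs (Decidable (A u v))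

/-- encoded table: components of the tree without the vertex `v` -/
def tbl : Fin 22 → ℕ :=
  ![0, 0, 0, 0, 0, 0, 0, 0, 0, 0, 0, 0, 59768832, 245628928, 984154112, 3937026048, 4413794718720,
    8859085875456, 9048064436800, 9803978680976, 12827635657380, 16126170534570]

/-- the component of `u` in the tree without `v` -/
def comp (v u : Fin 22) : ℕ := (tbl v >>> (2 * u.val)) % 4

lemma comp_adj : ∀ v u w : Fin 22, 12 ≤ v.val → A u w → u ≠ v → w ≠ v →
    comp v u = comp v w := by
  decide +kernel

lemma reach (v : Fin 22) : G.Reachable v 12 := by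
  have step : ∀ u : Fin 22, u ≠ par u → G.Adj u (par u) := fun u h => ⟨h, Or.inl rfl⟩
  have h1 : ∀ u : Fin 22, G.Reachable (par u) 12 → G.Reachable u 12 := by
    intro u hu
    by_cases h : u = par u
    · rw [← h] at hu
      exact hu
    · exact (step u h).reachable.trans hu
  have hit : ∀ (k : ℕ) (u : Fin 22), par^[k] u = 12 → G.Reachable u 12 := by
    intro k
    induction k with
    | zero => intro u hu; simp only [Function.iterate_zero, id] at hu; rw [hu]
    | succ k ih =>
      intro u hu
      rw [Function.iterate_succ_apply] at hu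
      exact h1 u (ih _ hu)
  have hall : ∀ u : Fin 22, par^[9] u = 12 := by decide +kernel
  exact hit 9 v (hall v)

lemma conn : G.Connected :=
  { preconnected := fun u v => (reach u).trans (reach v).symm
    nonempty := ⟨0⟩ }

lemma card_edges : Nat.card G.edgeSet = 21 := by
  rw [Nat.card_eq_fintype_card, ← SimpleGraph.edgeFinset_card]
  decide +kernel

lemma isTree : G.IsTree := by
  rw [SimpleGraph.isTree_iff_connected_and_card]
  refine ⟨conn, ?_⟩
  rw [card_edges]
  simp

lemma deg (v : Fin 22) : (G.neighborSet v).ncard = if v.val < 12 then 1 else 3 := by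
  rw [Set.ncard_eq_toFinset_card']
  revert v
  decide +kernel

lemma mem_range (v : Fin 22) : v ∈ Set.range (Fin.castLE (by norm_num) : Fin 12 → Fin 22) ↔
    v.val < 12 := by
  constructor
  · rintro ⟨x, rfl⟩
    exact x.isLt
  · intro h
    exact ⟨⟨v.val, h⟩, rfl⟩

/-- the tree with its leaves `0, …, 11` -/
def T : BinTree (Fin 12) where
  V := Fin 22
  fin := inferInstance
  G := G
  tree := isTree
  leaf := Fin.castLE (by norm_num)
  inj := Fin.castLE_injective _
  leaf_deg x := by
    rw [deg, if_pos]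
    exact x.isLt
  int_deg v hv := by
    rw [deg, if_neg]
    rwa [mem_range] at hv

/-- leaf as vertex -/
def lf (x : Fin 12) : Fin 22 := Fin.castLE (by norm_num) x

lemma walk_comp {v : Fin 22} (hv : 12 ≤ v.val) {u w : Fin 22} (p : G.Walk u w)
    (h : v ∉ p.support) : comp v u = comp v w := by
  induction p with
  | nil => rfl
  | cons hadj p ih =>
    rw [SimpleGraph.Walk.support_cons, List.mem_cons, not_or] at h
    have h2 := ih h.2
    rw [← h2]
    refine comp_adj v _ _ hv hadj (Ne.symm h.1) ?_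
    rintro rfl
    exact h.2 p.start_mem_support

lemma sep_of {v : Fin 22} (hv : 12 ≤ v.val) {a b : Fin 12} (h : comp v (lf a) ≠ comp v (lf b)) :
    Sep T v a b := by
  intro p
  by_contra hcon
  exact h (walk_comp hv p hcon)

/-! ### The cover -/

/-- first leaf of the supporting triple -/
def ta : Fin 22 → Fin 12 :=
  ![0, 0, 0, 0, 0, 0, 0, 0, 0, 0, 0, 0, 2, 4, 4, 6, 1, 3, 2, 0, 0, 5]

/-- second leaf of the supporting triple -/
def tb : Fin 22 → Fin 12 :=
  ![0, 0, 0, 0, 0, 0, 0, 0, 0, 0, 0, 0, 10, 9, 8, 7, 6, 4, 3, 2, 1, 6]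

/-- third leaf of the supporting triple -/
def tc : Fin 22 → Fin 12 :=
  ![0, 0, 0, 0, 0, 0, 0, 0, 0, 0, 0, 0, 11, 10, 9, 8, 11, 5, 7, 3, 9, 11]

/-- the triplet cover -/
def Cov : Set (Sym2 (Fin 12)) :=
  {e | ∃ v : Fin 22, 12 ≤ v.val ∧ (e = s(ta v, tb v) ∨ e = s(ta v, tc v) ∨ e = s(tb v, tc v))}

lemma triples : ∀ v : Fin 22, 12 ≤ v.val → comp v (lf (ta v)) ≠ comp v (lf (tb v)) ∧
    comp v (lf (ta v)) ≠ comp v (lf (tc v)) ∧ comp v (lf (tb v)) ≠ comp v (lf (tc v)) ∧
    ta v ≠ tb v ∧ ta v ≠ tc v ∧ tb v ≠ tc v := by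
  decide +kernel

lemma cover : IsTripletCover T Cov := by
  constructor
  · rintro e ⟨v, hv, h⟩
    have ht := triples v hv
    rcases h with rfl | rfl | rfl
    · simpa using ht.2.2.2.1
    · simpa using ht.2.2.2.2.1
    · simpa using ht.2.2.2.2.2
  · intro (v : Fin 22) hv
    have hv' : 12 ≤ v.val := by
      by_contra hcon
      exact hv ((mem_range v).2 (by omega))
    have ht := triples v hv'
    exact ⟨ta v, tb v, tc v, sep_of hv' ht.1, sep_of hv' ht.2.1, sep_of hv' ht.2.2.1,
      ⟨v, hv', Or.inl rfl⟩, ⟨v, hv', Or.inr (Or.inl rfl)⟩, ⟨v, hv', Or.inr (Or.inr rfl)⟩⟩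

/-! ### The closed set of 30 pairs -/

/-- bit masks of the closed set -/
def msk : Fin 12 → ℕ := ![654, 2657, 3209, 181, 1832, 2138, 2466, 333, 1744, 1299, 2836, 1126]

/-- the closed set -/
def cl (a b : Fin 12) : Bool := (msk a).testBit b.val

lemma cl_symm : ∀ a b : Fin 12, cl a b = cl b a := by decide +kernel

lemma cl_cov : ∀ v : Fin 22, 12 ≤ v.val → cl (ta v) (tb v) = true ∧ cl (ta v) (tc v) = true ∧
    cl (tb v) (tc v) = true := by
  decide +kernel

lemma closed : ∀ a b : Fin 12, a ≠ b → cl a b = false → ∀ x : Fin 12, cl x a = true →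
    cl x b = true → ∀ y : Fin 12, cl x y = true → cl y a = true → cl y b = true →
    ∃ v : Fin 22, 12 ≤ v.val ∧ comp v (lf x) ≠ comp v (lf a) ∧ comp v (lf y) ≠ comp v (lf b) := by
  decide +kernel

/-- membership of a pair in the closed set -/
def InC (e : Sym2 (Fin 12)) : Prop := ∀ a b, e = s(a, b) → cl a b = true

lemma inC_iff (a b : Fin 12) : InC s(a, b) ↔ cl a b = true := by
  constructor
  · intro h
    exact h a b rfl
  · intro h a' b' he
    rcases Sym2.eq_iff.1 he with ⟨rfl, rfl⟩ | ⟨rfl, rfl⟩
    · exact h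
    · rw [cl_symm]; exact h

lemma cov_inC {e : Sym2 (Fin 12)} (he : e ∈ Cov) : InC e := by
  obtain ⟨v, hv, h⟩ := he
  have := cl_cov v hv
  rcases h with rfl | rfl | rfl
  · exact (inC_iff _ _).2 this.1
  · exact (inC_iff _ _).2 this.2.1
  · exact (inC_iff _ _).2 this.2.2

theorem result : ∃ (T : BinTree (Fin 12)) (C : Set (Sym2 (Fin 12))),
    IsTripletCover T C ∧ ¬ Shellable T C := by
  refine ⟨T, Cov, cover, ?_⟩
  rintro ⟨m, a, b, hab, -, hall, hsh⟩
  -- every pair of the list lies in the closed set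
  have key : ∀ (k : ℕ) (i : Fin m), i.val = k → InC s(a i, b i) := by
    intro k
    induction k using Nat.strong_induction_on with
    | _ k ih =>
      intro i hi
      obtain ⟨x, y, hxy, hxa, hxb, hya, hyb, ⟨p, q, -, -, hpq⟩, hfive⟩ := hsh i
      have hin : ∀ e ∈ ({s(x, y), s(x, a i), s(x, b i), s(y, a i), s(y, b i)} :
          Set (Sym2 (Fin 12))), InC e := by
        intro e he
        rcases hfive e he with h | ⟨j, hj, rfl⟩
        · exact cov_inC h
        · exact ih j.val (by rw [← hi]; exact hj) j rfl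
      have h1 := (inC_iff _ _).1 (hin s(x, y) (by simp))
      have h2 := (inC_iff _ _).1 (hin s(x, a i) (by simp))
      have h3 := (inC_iff _ _).1 (hin s(x, b i) (by simp))
      have h4 := (inC_iff _ _).1 (hin s(y, a i) (by simp))
      have h5 := (inC_iff _ _).1 (hin s(y, b i) (by simp))
      rw [inC_iff]
      by_contra hcon
      rw [Bool.not_eq_true] at hcon
      obtain ⟨v, hv, hv1, hv2⟩ := closed (a i) (b i) (hab i) hcon x h2 h3 y h1 h4 h5
      exact hpq v (sep_of hv hv1 p) (sep_of hv hv2 q)
  -- but the pair `{0, 4}` is not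
  have h04 : (s(0, 4) : Sym2 (Fin 12)) ∉ Cov := fun h => by
    have := (inC_iff _ _).1 (cov_inC h)
    revert this
    decide
  have hd : ¬ (s(0, 4) : Sym2 (Fin 12)).IsDiag := by simp
  obtain ⟨i, hi⟩ := (hall _ hd).1 h04
  have h := key i.val i rfl
  rw [hi, inC_iff] at h
  revert h
  decide

end Pool.Agent.Results.MP_66d22e_co.NonShellable
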